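import Mathlib

open Set Filter Topology
open scoped ContDiff unitInterval

noncomputable section

namespace Pool.Agent.Helper10.EK

/-- The complex manifold `ℂ³`. -/
abbrev E : Type := ℂ × ℂ × ℂ

/-- A group is almost abelian if it has an abelian subgroup of finite index. -/
def AlmostAbelian (G : Type) [Group G] : Prop :=
  ∃ H : Subgroup G, H.FiniteIndex ∧ ∀ a ∈ H, ∀ b ∈ H, a * b = b * a

/-- The Levi form of `φ` at `p` in the direction `v`, that is
`∑ (∂²φ/∂z_j∂\bar z_k)(p) v_j \bar v_k`: a quarter of the sum of the second derivatives of `φ` at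
`p` in the real directions `v` and `i v`. -/
def levi (φ : E → ℝ) (p v : E) : ℝ :=
  (deriv (deriv fun t : ℝ => φ (p + (t : ℂ) • v)) 0 +
    deriv (deriv fun t : ℝ => φ (p + ((t : ℂ) * Complex.I) • v)) 0) / 4

/-- The smooth function `φ` on `ℂ³` is a potential of a complete Kähler metric: the Hermitian form
`levi φ` is positive definite at every point (it is then a Kähler metric, with Kähler form
`i∂\bar∂φ`), and every `C¹` curve `[0, ∞) → ℂ³` of finite length converges. -/
def IsCompleteKahlerPotential (φ : E → ℝ) : Prop :=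
  ContDiff ℝ ∞ φ ∧ (∀ p v, v ≠ 0 → 0 < levi φ p v) ∧
    ∀ c : ℝ → E, ContDiff ℝ 1 c →
      (∃ B : ℝ, ∀ t : ℝ, 0 ≤ t → ∫ s in (0 : ℝ)..t, √(levi φ (c s) (deriv c s)) ≤ B) →
      ∃ q, Tendsto c atTop (𝓝 q)

/-- The group `Γ` acts on `ℂ³` by biholomorphic maps, freely and properly discontinuously; the
orbit space is then a complex manifold, with universal covering `ℂ³`. -/
def IsCoveringAction (Γ : Type) [Group Γ] [MulAction Γ E] : Prop :=
  (∀ γ : Γ, Differentiable ℂ fun p : E => γ • p) ∧ (∀ (γ : Γ) (p : E), γ • p = p → γ = 1) ∧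
    ∀ K : Set E, IsCompact K → {γ : Γ | ((fun p => γ • p) '' K ∩ K).Nonempty}.Finite

/-- The orbit space `ℂ³/Γ`. -/
abbrev Orb (Γ : Type) [Group Γ] [MulAction Γ E] : Type := MulAction.orbitRel.Quotient Γ E

/-- The projection `ℂ³ → ℂ³/Γ`. -/
def pr (Γ : Type) [Group Γ] [MulAction Γ E] (p : E) : Orb Γ := Quotient.mk _ p

/-- The discrete Heisenberg group. -/
@[ext] structure Heis where
  m : ℤ
  n : ℤ
  k : ℤ

namespace Heis

instance : Mul Heis := ⟨fun g h => ⟨g.m + h.m, g.n + h.n, g.k + h.k + g.n * h.m⟩⟩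
instance : One Heis := ⟨⟨0, 0, 0⟩⟩
instance : Inv Heis := ⟨fun g => ⟨-g.m, -g.n, -g.k + g.n * g.m⟩⟩

@[simp] theorem mul_m (g h : Heis) : (g * h).m = g.m + h.m := rfl
@[simp] theorem mul_n (g h : Heis) : (g * h).n = g.n + h.n := rfl
@[simp] theorem mul_k (g h : Heis) : (g * h).k = g.k + h.k + g.n * h.m := rfl
@[simp] theorem one_m : (1 : Heis).m = 0 := rfl
@[simp] theorem one_n : (1 : Heis).n = 0 := rfl
@[simp] theorem one_k : (1 : Heis).k = 0 := rfl
@[simp] theorem inv_m (g : Heis) : (g⁻¹).m = -g.m := rfl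
@[simp] theorem inv_n (g : Heis) : (g⁻¹).n = -g.n := rfl
@[simp] theorem inv_k (g : Heis) : (g⁻¹).k = -g.k + g.n * g.m := rfl

instance : Group Heis :=
  Group.ofLeftAxioms (by intro g h l; ext <;> simp <;> ring)
    (by intro g; ext <;> simp) (by intro g; ext <;> simp)

/-- The action of the Heisenberg group on `ℂ³`:
`(m, n, k) (x, y, z) = (x + m, y + n, z + k + n x)`. -/
instance : MulAction Heis E where
  smul g p := (p.1 + g.m, p.2.1 + g.n, p.2.2 + g.k + g.n * p.1)
  one_smul p := by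
    show (p.1 + ((1 : Heis).m : ℂ), p.2.1 + ((1 : Heis).n : ℂ),
      p.2.2 + ((1 : Heis).k : ℂ) + ((1 : Heis).n : ℂ) * p.1) = p
    simp
  mul_smul g h p := by
    show (p.1 + ((g * h).m : ℂ), p.2.1 + ((g * h).n : ℂ),
      p.2.2 + ((g * h).k : ℂ) + ((g * h).n : ℂ) * p.1) =
      (p.1 + h.m + g.m, p.2.1 + h.n + g.n, p.2.2 + h.k + h.n * p.1 + g.k + g.n * (p.1 + h.m))
    refine Prod.ext ?_ (Prod.ext ?_ ?_)
    · simp only [mul_m]; push_cast; ring
    · simp only [mul_n]; push_cast; ring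
    · simp only [mul_k, mul_n]; push_cast; ring

theorem smul_def (g : Heis) (p : E) :
    g • p = (p.1 + (g.m : ℂ), p.2.1 + (g.n : ℂ), p.2.2 + (g.k : ℂ) + (g.n : ℂ) * p.1) := rfl

end Heis

/-- The function `Im z - Re y Im x`, invariant under the Heisenberg group. -/
def rho (p : E) : ℝ := p.2.2.im - p.2.1.re * p.1.im

/-- The derivative of `rho` in the direction `v`. -/
def drho (p v : E) : ℝ := v.2.2.im - v.2.1.re * p.1.im - p.2.1.re * v.1.im

/-- A smooth even convex function with second derivative `1 / (1 + r²)`. -/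
def ff (r : ℝ) : ℝ := r * Real.arctan r - Real.log (1 + r ^ 2) / 2

/-- The Kähler potential. -/
def pot (p : E) : ℝ := 2 * p.1.im ^ 2 + 2 * p.2.1.im ^ 2 + ff (rho p)


end Pool.Agent.Helper10.EK
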