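import Mathlib
import Pool.Agent.Helper10.EK.Base

open Set Filter Topology
open scoped RealInnerProductSpace ContDiff unitInterval

noncomputable section

namespace Pool.Agent.Helper10.EK

namespace J_action


-- TARGET: prove this (put auxiliary lemmas between the ASSUMED END line and the theorem)

theorem action : IsCoveringAction Heis := by
  refine ⟨?_, ?_, ?_⟩
  · intro g
    simp only [Heis.smul_def]
    fun_prop
  · intro g p h
    rw [Heis.smul_def] at h
    have h1 : p.1 + (g.m : ℂ) = p.1 := congrArg Prod.fst h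
    have h2 : p.2.1 + (g.n : ℂ) = p.2.1 := congrArg (fun q : E => q.2.1) h
    have h3 : p.2.2 + (g.k : ℂ) + (g.n : ℂ) * p.1 = p.2.2 := congrArg (fun q : E => q.2.2) h
    have hm : (g.m : ℂ) = 0 := by linear_combination h1
    have hn : (g.n : ℂ) = 0 := by linear_combination h2
    have hk : (g.k : ℂ) = 0 := by
      rw [hn] at h3
      linear_combination h3
    apply Heis.ext
    · exact_mod_cast hm
    · exact_mod_cast hn
    · exact_mod_cast hk
  · intro K hK
    obtain ⟨r0, hr0⟩ := hK.isBounded.subset_closedBall (0 : E)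
    set r : ℝ := max r0 0 with hr
    have hrn : 0 ≤ r := le_max_right _ _
    have hKr : ∀ p ∈ K, ‖p‖ ≤ r := by
      intro p hp
      have := hr0 hp
      rw [mem_closedBall_zero_iff] at this
      exact this.trans (le_max_left _ _)
    set N : ℤ := ⌈2 * r + 2 * r ^ 2⌉ with hN
    have hNr : 2 * r + 2 * r ^ 2 ≤ (N : ℝ) := Int.le_ceil _
    have hint : ∀ a : ℤ, ‖(a : ℂ)‖ ≤ 2 * r + 2 * r ^ 2 → a ∈ Set.Icc (-N) N := by
      intro a ha
      rw [Complex.norm_intCast] at ha
      have h1 := abs_le.mp (ha.trans hNr)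
      constructor
      · exact_mod_cast h1.1
      · exact_mod_cast h1.2
    apply Set.Finite.subset (Set.Finite.image (fun t : ℤ × ℤ × ℤ => (⟨t.1, t.2.1, t.2.2⟩ : Heis))
      ((Set.finite_Icc (-N) N).prod ((Set.finite_Icc (-N) N).prod (Set.finite_Icc (-N) N))))
    rintro g ⟨_, ⟨p, hp, rfl⟩, hgp⟩
    have hgp' : g • p ∈ K := hgp
    have n1 := hKr p hp
    have n2 := hKr _ hgp'
    have a1 : ‖p.1‖ ≤ r := (norm_fst_le p).trans n1
    have a2 : ‖p.2.1‖ ≤ r := ((norm_fst_le p.2).trans (norm_snd_le p)).trans n1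
    have a3 : ‖p.2.2‖ ≤ r := ((norm_snd_le p.2).trans (norm_snd_le p)).trans n1
    have b1 : ‖(g • p).1‖ ≤ r := (norm_fst_le (g • p)).trans n2
    have b2 : ‖(g • p).2.1‖ ≤ r := ((norm_fst_le (g • p).2).trans (norm_snd_le (g • p))).trans n2
    have b3 : ‖(g • p).2.2‖ ≤ r := ((norm_snd_le (g • p).2).trans (norm_snd_le (g • p))).trans n2
    have e1 : (g.m : ℂ) = (g • p).1 - p.1 := by rw [Heis.smul_def]; ring
    have e2 : (g.n : ℂ) = (g • p).2.1 - p.2.1 := by rw [Heis.smul_def]; ring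
    have e3 : (g.k : ℂ) = (g • p).2.2 - p.2.2 - (g.n : ℂ) * p.1 := by rw [Heis.smul_def]; ring
    have c1 : ‖(g.m : ℂ)‖ ≤ 2 * r := by
      rw [e1]
      exact (norm_sub_le _ _).trans (by linarith)
    have c2 : ‖(g.n : ℂ)‖ ≤ 2 * r := by
      rw [e2]
      exact (norm_sub_le _ _).trans (by linarith)
    have c3 : ‖(g.k : ℂ)‖ ≤ 2 * r + 2 * r ^ 2 := by
      rw [e3]
      refine (norm_sub_le _ _).trans ?_
      have d1 : ‖(g • p).2.2 - p.2.2‖ ≤ 2 * r := (norm_sub_le _ _).trans (by linarith)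
      have d2 : ‖(g.n : ℂ) * p.1‖ ≤ 2 * r * r := by
        rw [norm_mul]
        exact mul_le_mul c2 a1 (norm_nonneg _) (by positivity)
      nlinarith
    have hr2 : 0 ≤ r ^ 2 := sq_nonneg r
    exact ⟨(g.m, g.n, g.k), ⟨hint _ (by linarith), hint _ (by linarith), hint _ c3⟩, rfl⟩


end J_action

alias action := J_action.action

end Pool.Agent.Helper10.EK
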