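import Mathlib
import Pool.Agent.Helper10.EK.Base

open Set Filter Topology
open scoped RealInnerProductSpace ContDiff unitInterval

noncomputable section

namespace Pool.Agent.Helper10.EK

namespace J_conv_gen


-- TARGET: prove this (put auxiliary lemmas between the ASSUMED END line and the theorem)

theorem conv_gen {F : Type} [NormedAddCommGroup F] [NormedSpace ℝ F] [CompleteSpace F] {f : ℝ → F}
    (hf : ContDiff ℝ 1 f) {L : ℝ → ℝ} (hL : Continuous L) (h0 : ∀ s, 0 ≤ L s) {B C : ℝ}
    (hC : 0 ≤ C) (hB : ∀ t : ℝ, 0 ≤ t → ∫ s in (0 : ℝ)..t, L s ≤ B)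
    (hd : ∀ s, 0 ≤ s → ‖deriv f s‖ ≤ C * L s) :
    (∃ q, Tendsto f atTop (𝓝 q)) ∧ ∀ s, 0 ≤ s → ‖f s - f 0‖ ≤ C * B := by
  have hcd : Continuous (deriv f) := hf.continuous_deriv le_rfl
  have hdiff : Differentiable ℝ f := hf.differentiable one_ne_zero
  have hnb : ∀ t : ℝ, 0 ≤ t → ∫ s in (0 : ℝ)..t, ‖deriv f s‖ ≤ C * B := by
    intro t ht
    have h1 : ∫ s in (0 : ℝ)..t, ‖deriv f s‖ ≤ ∫ s in (0 : ℝ)..t, C * L s := by
      apply intervalIntegral.integral_mono_on ht (hcd.norm.intervalIntegrable _ _)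
        ((continuous_const.mul hL).intervalIntegrable _ _)
      intro x hx
      exact hd x hx.1
    rw [intervalIntegral.integral_const_mul] at h1
    exact h1.trans (mul_le_mul_of_nonneg_left (hB t ht) hC)
  constructor
  · have hint : MeasureTheory.IntegrableOn (deriv f) (Ioi (0:ℝ)) := by
      refine MeasureTheory.integrableOn_Ioi_of_intervalIntegral_norm_bounded (C * B) (0:ℝ)
        (b := fun t : ℝ => t) (l := atTop) ?_ tendsto_id ?_
      · intro t
        exact (hcd.integrableOn_Icc (a := 0) (b := t)).mono_set Ioc_subset_Icc_self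
      · filter_upwards [eventually_ge_atTop (0:ℝ)] with t ht
        exact hnb t ht
    exact ⟨_, MeasureTheory.tendsto_limUnder_of_hasDerivAt_of_integrableOn_Ioi
      (fun x _ => (hdiff x).hasDerivAt) hint⟩
  · intro s hs
    rw [← intervalIntegral.integral_deriv_eq_sub (fun x _ => hdiff x)
      (hcd.intervalIntegrable _ _)]
    exact (intervalIntegral.norm_integral_le_integral_norm hs).trans (hnb s hs)


end J_conv_gen

alias conv_gen := J_conv_gen.conv_gen

end Pool.Agent.Helper10.EK
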