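import Mathlib
import Pool.Agent.Helper10.EK.Base

open Set Filter Topology
open scoped RealInnerProductSpace ContDiff unitInterval

noncomputable section

namespace Pool.Agent.Helper10.EK

namespace J_ff_props


-- TARGET: prove this (put auxiliary lemmas between the ASSUMED END line and the theorem)

theorem ff_props_deriv (r : ℝ) : HasDerivAt ff (Real.arctan r) r := by
  have hne : (1 + r ^ 2) ≠ 0 := by positivity
  have h1 : HasDerivAt (fun r : ℝ => r * Real.arctan r) (1 * Real.arctan r + r * (1 / (1 + r ^ 2))) r :=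
    (hasDerivAt_id' r).mul (Real.hasDerivAt_arctan r)
  have h2 : HasDerivAt (fun r : ℝ => 1 + r ^ 2) (2 * r) r := by
    have := (hasDerivAt_pow 2 r).const_add 1
    simpa using this
  have h3 := (h2.log hne).div_const 2
  have h4 := h1.sub h3
  have h5 : (1 * Real.arctan r + r * (1 / (1 + r ^ 2))) - 2 * r / (1 + r ^ 2) / 2 = Real.arctan r := by
    field_simp
    ring
  rw [h5] at h4
  exact h4

theorem ff_props_even (r : ℝ) : ff (-r) = ff r := by
  simp [ff, Real.arctan_neg]

theorem ff_props_contDiff : ContDiff ℝ ∞ ff := by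
  unfold ff
  refine ContDiff.sub (contDiff_id.mul Real.contDiff_arctan) ?_
  refine ContDiff.div_const (ContDiff.log (contDiff_const.add (contDiff_id.pow 2)) ?_) 2
  intro x
  have : (0:ℝ) < 1 + x ^ 2 := by positivity
  exact this.ne'

theorem ff_props_mono (a c : ℝ) (hc : c ≤ Real.arctan a) :
    ∀ r, a ≤ r → ff a - c * a ≤ ff r - c * r := by
  intro r hr
  have hd : ∀ x, HasDerivAt (fun x => ff x - c * x) (Real.arctan x - c * 1) x := by
    intro x
    exact (ff_props_deriv x).sub ((hasDerivAt_id' x).const_mul c)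
  have hm : MonotoneOn (fun x => ff x - c * x) (Set.Ici a) := by
    refine monotoneOn_of_deriv_nonneg (convex_Ici a) ?_ ?_ ?_
    · intro x _
      exact (hd x).continuousAt.continuousWithinAt
    · intro x _
      exact (hd x).differentiableAt.differentiableWithinAt
    · intro x hx
      rw [interior_Ici] at hx
      rw [(hd x).deriv]
      have : Real.arctan a ≤ Real.arctan x := Real.arctan_strictMono.monotone (le_of_lt hx)
      linarith
  exact hm (Set.mem_Ici.mpr le_rfl) (Set.mem_Ici.mpr hr) hr

theorem ff_props_nonneg (r : ℝ) (hr : 0 ≤ r) : (r - 1) / 2 ≤ ff r ∧ 0 ≤ ff r := by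
  have h0 : ff 0 = 0 := by simp [ff]
  have h1 : ∀ r, 0 ≤ r → 0 ≤ ff r := by
    intro r hr
    have := ff_props_mono 0 0 (by simp) r hr
    rw [h0] at this
    linarith
  refine ⟨?_, h1 r hr⟩
  rcases le_total r 1 with h | h
  · have := h1 r hr
    linarith
  · have hpi : (1:ℝ) / 2 ≤ Real.arctan 1 := by
      rw [Real.arctan_one]
      have := Real.pi_gt_three
      linarith
    have h2 := ff_props_mono 1 (1/2) hpi r h
    have h3 := h1 1 (by norm_num)
    linarith

theorem ff_props : ContDiff ℝ ∞ ff ∧ (∀ r, HasDerivAt ff (Real.arctan r) r) ∧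
    ∀ r, (|r| - 1) / 2 ≤ ff r := by
  refine ⟨ff_props_contDiff, ff_props_deriv, ?_⟩
  intro r
  rcases le_total 0 r with h | h
  · rw [abs_of_nonneg h]
    exact (ff_props_nonneg r h).1
  · rw [abs_of_nonpos h, ← ff_props_even]
    exact (ff_props_nonneg (-r) (by linarith)).1


end J_ff_props

alias ff_props := J_ff_props.ff_props

end Pool.Agent.Helper10.EK
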