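import Mathlib
import Pool.Agent.Helper10.EK.Base
import Pool.Agent.Helper10.EK.J_ff_props

open Set Filter Topology
open scoped RealInnerProductSpace ContDiff unitInterval

noncomputable section

namespace Pool.Agent.Helper10.EK

namespace J_levi_eq


theorem second_deriv_pot (p w : E) :
    deriv (deriv fun t : ℝ => pot (p + (t : ℂ) • w)) 0 =
      4 * w.1.im ^ 2 + 4 * w.2.1.im ^ 2 + drho p w ^ 2 / (1 + rho p ^ 2) -
        2 * Real.arctan (rho p) * (w.2.1.re * w.1.im) := by
  have hfun : (fun t : ℝ => pot (p + (t : ℂ) • w)) = fun t : ℝ =>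
      2 * (p.1.im + t * w.1.im) ^ 2 + 2 * (p.2.1.im + t * w.2.1.im) ^ 2 +
        ff (rho p + t * drho p w - t ^ 2 * (w.2.1.re * w.1.im)) := by
    funext t
    have hr : rho (p + (t : ℂ) • w) =
        rho p + t * drho p w - t ^ 2 * (w.2.1.re * w.1.im) := by
      simp [rho, drho]
      ring
    unfold pot
    rw [hr]
    simp
  have hid : ∀ t : ℝ, HasDerivAt (fun t : ℝ => t) 1 t := fun t => hasDerivAt_id t
  have hq : ∀ t : ℝ, HasDerivAt
      (fun t : ℝ => rho p + t * drho p w - t ^ 2 * (w.2.1.re * w.1.im))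
      (drho p w - 2 * t * (w.2.1.re * w.1.im)) t := by
    intro t
    have h1 := (((hid t).mul_const (drho p w)).const_add (rho p)).sub
      (((hid t).pow 2).mul_const (w.2.1.re * w.1.im))
    refine h1.congr_deriv ?_
    simp
  have h1 : deriv (fun t : ℝ =>
      2 * (p.1.im + t * w.1.im) ^ 2 + 2 * (p.2.1.im + t * w.2.1.im) ^ 2 +
        ff (rho p + t * drho p w - t ^ 2 * (w.2.1.re * w.1.im))) = fun t : ℝ =>
      4 * (p.1.im + t * w.1.im) * w.1.im + 4 * (p.2.1.im + t * w.2.1.im) * w.2.1.im +
        Real.arctan (rho p + t * drho p w - t ^ 2 * (w.2.1.re * w.1.im)) *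
          (drho p w - 2 * t * (w.2.1.re * w.1.im)) := by
    funext t
    apply HasDerivAt.deriv
    have ha := ((((hid t).mul_const w.1.im).const_add p.1.im).pow 2).const_mul 2
    have hb := ((((hid t).mul_const w.2.1.im).const_add p.2.1.im).pow 2).const_mul 2
    have hc := (ff_props.2.1 (rho p + t * drho p w - t ^ 2 * (w.2.1.re * w.1.im))).comp t (hq t)
    refine ((ha.add hb).add hc).congr_deriv ?_
    simp
    ring
  rw [hfun, h1]
  apply HasDerivAt.deriv
  have ha := ((((hid 0).mul_const w.1.im).const_add p.1.im).const_mul 4).mul_const w.1.im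
  have hb := ((((hid 0).mul_const w.2.1.im).const_add p.2.1.im).const_mul 4).mul_const w.2.1.im
  have hc := (hq 0).arctan
  have hd := (((hid 0).const_mul 2).mul_const (w.2.1.re * w.1.im)).const_sub (drho p w)
  refine ((ha.add hb).add (hc.mul hd)).congr_deriv ?_
  simp
  ring

-- TARGET: prove this (put auxiliary lemmas between the ASSUMED END line and the theorem)

theorem levi_eq (p v : E) : levi pot p v = ‖v.1‖ ^ 2 + ‖v.2.1‖ ^ 2 +
    (drho p v ^ 2 + drho p (Complex.I • v) ^ 2) / (4 * (1 + rho p ^ 2)) +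
    Real.arctan (rho p) * (v.2.1.im * v.1.re - v.2.1.re * v.1.im) / 2 := by
  unfold levi
  have h2 : (fun t : ℝ => pot (p + ((t : ℂ) * Complex.I) • v)) =
      fun t : ℝ => pot (p + (t : ℂ) • (Complex.I • v)) := by
    funext t
    rw [mul_smul]
  rw [h2, second_deriv_pot, second_deriv_pot]
  have e1 : (Complex.I • v).1.im = v.1.re := by simp
  have e2 : (Complex.I • v).2.1.im = v.2.1.re := by simp
  have e3 : (Complex.I • v).2.1.re = - v.2.1.im := by simp
  rw [e1, e2, e3, Complex.sq_norm, Complex.sq_norm, Complex.normSq_apply, Complex.normSq_apply]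
  have hpos : (1 + rho p ^ 2) ≠ 0 := by positivity
  field_simp
  ring


end J_levi_eq

alias levi_eq := J_levi_eq.levi_eq

end Pool.Agent.Helper10.EK
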