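import Mathlib
import Pool.Agent.Helper10.EK.Base
import Pool.Agent.Helper10.EK.J_levi_eq

open Set Filter Topology
open scoped RealInnerProductSpace ContDiff unitInterval

noncomputable section

namespace Pool.Agent.Helper10.EK

namespace J_levi_cont


-- TARGET: prove this (put auxiliary lemmas between the ASSUMED END line and the theorem)

theorem levi_cont {c v : ℝ → E} (hc : Continuous c) (hv : Continuous v) :
    Continuous fun s => levi pot (c s) (v s) := by
  simp only [levi_eq]
  unfold drho rho
  have hne : ∀ s, (4 * (1 + ((c s).2.2.im - (c s).2.1.re * (c s).1.im) ^ 2) : ℝ) ≠ 0 := by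
    intro s
    positivity
  have h1 : Continuous fun s => (4 * (1 + ((c s).2.2.im - (c s).2.1.re * (c s).1.im) ^ 2) : ℝ) := by
    fun_prop
  have h2 : Continuous fun s => ((v s).2.2.im - (v s).2.1.re * (c s).1.im - (c s).2.1.re * (v s).1.im) ^ 2 +
      ((Complex.I • v s).2.2.im - (Complex.I • v s).2.1.re * (c s).1.im -
        (c s).2.1.re * (Complex.I • v s).1.im) ^ 2 := by
    fun_prop
  have h3 : Continuous fun s => Real.arctan ((c s).2.2.im - (c s).2.1.re * (c s).1.im) :=
    Real.continuous_arctan.comp (by fun_prop)
  have h4 : Continuous fun s => ((v s).2.1.im * (v s).1.re - (v s).2.1.re * (v s).1.im) := by fun_prop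
  exact ((((continuous_fst.comp hv).norm.pow 2).add
    (((continuous_fst.comp (continuous_snd.comp hv)).norm.pow 2))).add (h2.div h1 hne)).add
      ((h3.mul h4).div_const 2)


end J_levi_cont

alias levi_cont := J_levi_cont.levi_cont

end Pool.Agent.Helper10.EK
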