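import Mathlib
import Pool.Agent.Helper10.EK.Base
import Pool.Agent.Helper10.EK.J_levi_eq

open Set Filter Topology
open scoped RealInnerProductSpace ContDiff unitInterval

noncomputable section

namespace Pool.Agent.Helper10.EK

namespace J_levi_lower


-- TARGET: prove this (put auxiliary lemmas between the ASSUMED END line and the theorem)

theorem levi_lower (p v : E) : (‖v.1‖ ^ 2 + ‖v.2.1‖ ^ 2) / 2 +
    (drho p v ^ 2 + drho p (Complex.I • v) ^ 2) / (4 * (1 + rho p ^ 2)) ≤ levi pot p v := by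
  rw [levi_eq]
  have h1 : ‖v.1‖ ^ 2 = v.1.re ^ 2 + v.1.im ^ 2 := by
    rw [Complex.sq_norm, Complex.normSq_apply]; ring
  have h2 : ‖v.2.1‖ ^ 2 = v.2.1.re ^ 2 + v.2.1.im ^ 2 := by
    rw [Complex.sq_norm, Complex.normSq_apply]; ring
  rw [h1, h2]
  have hp : Real.pi ≤ 4 := Real.pi_le_four
  have ha : Real.arctan (rho p) < 2 := by
    have := Real.arctan_lt_pi_div_two (rho p)
    linarith
  have hb : -2 < Real.arctan (rho p) := by
    have := Real.neg_pi_div_two_lt_arctan (rho p)
    linarith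
  generalize Real.arctan (rho p) = a at ha hb ⊢
  generalize (drho p v ^ 2 + drho p (Complex.I • v) ^ 2) / (4 * (1 + rho p ^ 2)) = q
  generalize v.1.re = r1
  generalize v.1.im = i1
  generalize v.2.1.re = r2
  generalize v.2.1.im = i2
  have e1 : 0 ≤ (2 + a) * ((r1 + i2) ^ 2 + (i1 - r2) ^ 2) :=
    mul_nonneg (by linarith) (by positivity)
  have e2 : 0 ≤ (2 - a) * ((r1 - i2) ^ 2 + (i1 + r2) ^ 2) :=
    mul_nonneg (by linarith) (by positivity)
  nlinarith [e1, e2]


end J_levi_lower

alias levi_lower := J_levi_lower.levi_lower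

end Pool.Agent.Helper10.EK
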