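import Mathlib
import Pool.Agent.Helper10.EK.Base
import Pool.Agent.Helper10.EK.J_levi_lower
import Pool.Agent.Helper10.EK.J_levi_cont
import Pool.Agent.Helper10.EK.J_conv_gen

open Set Filter Topology
open scoped RealInnerProductSpace ContDiff unitInterval

noncomputable section

namespace Pool.Agent.Helper10.EK

namespace J_rho_bdd


-- TARGET: prove this (put auxiliary lemmas between the ASSUMED END line and the theorem)

theorem rho_bdd {c : ℝ → E} (hc : ContDiff ℝ 1 c) {B : ℝ}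
    (hB : ∀ t : ℝ, 0 ≤ t → ∫ s in (0 : ℝ)..t, √(levi pot (c s) (deriv c s)) ≤ B) :
    ∃ R : ℝ, ∀ t, 0 ≤ t → |rho (c t)| ≤ R := by
  set L1 : E →L[ℝ] ℝ := Complex.imCLM.comp (ContinuousLinearMap.fst ℝ ℂ (ℂ × ℂ)) with hL1
  set L2 : E →L[ℝ] ℝ := Complex.reCLM.comp ((ContinuousLinearMap.fst ℝ ℂ ℂ).comp
    (ContinuousLinearMap.snd ℝ ℂ (ℂ × ℂ))) with hL2
  set L3 : E →L[ℝ] ℝ := Complex.imCLM.comp ((ContinuousLinearMap.snd ℝ ℂ ℂ).comp
    (ContinuousLinearMap.snd ℝ ℂ (ℂ × ℂ))) with hL3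
  have hrho : ∀ p : E, rho p = L3 p - L2 p * L1 p := fun p => rfl
  have hcd : ∀ s, HasDerivAt c (deriv c s) s := fun s =>
    (hc.differentiable (by norm_num) s).hasDerivAt
  have hrd : ∀ s, HasDerivAt (fun t => rho (c t)) (drho (c s) (deriv c s)) s := by
    intro s
    have h1 := L1.hasFDerivAt.comp_hasDerivAt s (hcd s)
    have h2 := L2.hasFDerivAt.comp_hasDerivAt s (hcd s)
    have h3 := L3.hasFDerivAt.comp_hasDerivAt s (hcd s)
    have h4 := h3.sub (h2.mul h1)
    have h5 : drho (c s) (deriv c s) = L3 (deriv c s) -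
        (L2 (deriv c s) * L1 (c s) + L2 (c s) * L1 (deriv c s)) := by
      show (deriv c s).2.2.im - (deriv c s).2.1.re * (c s).1.im - (c s).2.1.re * (deriv c s).1.im =
        (deriv c s).2.2.im - ((deriv c s).2.1.re * (c s).1.im + (c s).2.1.re * (deriv c s).1.im)
      ring
    rw [h5]
    exact h4
  have hrc : ContDiff ℝ 1 (fun t => rho (c t)) := by
    have h1 : ContDiff ℝ 1 (fun t => L1 (c t)) := L1.contDiff.comp hc
    have h2 : ContDiff ℝ 1 (fun t => L2 (c t)) := L2.contDiff.comp hc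
    have h3 : ContDiff ℝ 1 (fun t => L3 (c t)) := L3.contDiff.comp hc
    exact h3.sub (h2.mul h1)
  have hu : ContDiff ℝ 1 (fun t => Real.arsinh (rho (c t))) := Real.contDiff_arsinh.comp hrc
  have hud : ∀ s, deriv (fun t => Real.arsinh (rho (c t))) s =
      (√(1 + rho (c s) ^ 2))⁻¹ * drho (c s) (deriv c s) := by
    intro s
    have h := (hrd s).arsinh
    rw [h.deriv, smul_eq_mul]
  have hLc : Continuous fun s => √(levi pot (c s) (deriv c s)) :=
    Real.continuous_sqrt.comp (levi_cont hc.continuous (hc.continuous_deriv (le_refl 1)))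
  have hbound : ∀ s, 0 ≤ s → ‖deriv (fun t => Real.arsinh (rho (c t))) s‖ ≤
      2 * √(levi pot (c s) (deriv c s)) := by
    intro s _
    rw [hud s, Real.norm_eq_abs, abs_mul]
    have hp : 0 < 1 + rho (c s) ^ 2 := by positivity
    have hsq : 0 < √(1 + rho (c s) ^ 2) := Real.sqrt_pos.2 hp
    have h1 := levi_lower (c s) (deriv c s)
    have h2 : drho (c s) (deriv c s) ^ 2 / (4 * (1 + rho (c s) ^ 2)) ≤
        levi pot (c s) (deriv c s) := by
      refine le_trans ?_ h1
      have h3 : drho (c s) (deriv c s) ^ 2 / (4 * (1 + rho (c s) ^ 2)) ≤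
          (drho (c s) (deriv c s) ^ 2 + drho (c s) (Complex.I • deriv c s) ^ 2) /
            (4 * (1 + rho (c s) ^ 2)) := by
        apply div_le_div_of_nonneg_right _ (by positivity)
        nlinarith [sq_nonneg (drho (c s) (Complex.I • deriv c s))]
      have h4 : 0 ≤ (‖(deriv c s).1‖ ^ 2 + ‖(deriv c s).2.1‖ ^ 2) / 2 := by positivity
      linarith
    have h5 : |(√(1 + rho (c s) ^ 2))⁻¹| * |drho (c s) (deriv c s)| / 2 ≤
        √(levi pot (c s) (deriv c s)) := by
      apply Real.le_sqrt_of_sq_le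
      refine le_trans (le_of_eq ?_) h2
      rw [abs_inv, abs_of_pos hsq, div_pow, mul_pow, inv_pow, Real.sq_sqrt hp.le, sq_abs]
      field_simp
      norm_num
    linarith
  obtain ⟨_, hfin⟩ := conv_gen hu hLc (fun s => Real.sqrt_nonneg _) (B := B) (C := 2)
    (by norm_num) hB hbound
  refine ⟨Real.sinh (|Real.arsinh (rho (c 0))| + 2 * B), fun t ht => ?_⟩
  have h1 := hfin t ht
  rw [Real.norm_eq_abs] at h1
  have h2 : |Real.arsinh (rho (c t))| ≤ |Real.arsinh (rho (c 0))| + 2 * B := by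
    have h3 := abs_sub_abs_le_abs_sub (Real.arsinh (rho (c t))) (Real.arsinh (rho (c 0)))
    linarith
  have h3 : rho (c t) = Real.sinh (Real.arsinh (rho (c t))) := (Real.sinh_arsinh _).symm
  rw [h3, Real.abs_sinh]
  exact Real.sinh_le_sinh.2 h2


end J_rho_bdd

alias rho_bdd := J_rho_bdd.rho_bdd

end Pool.Agent.Helper10.EK
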