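import Mathlib
import Pool.Agent.Helper10.EK.Base
import Pool.Agent.Helper10.EK.J_levi_lower
import Pool.Agent.Helper10.EK.J_levi_cont
import Pool.Agent.Helper10.EK.J_conv_gen
import Pool.Agent.Helper10.EK.J_rho_bdd

open Set Filter Topology
open scoped RealInnerProductSpace ContDiff unitInterval

noncomputable section

namespace Pool.Agent.Helper10.EK

namespace J_complete


-- TARGET: prove this (put auxiliary lemmas between the ASSUMED END line and the theorem)

theorem complete (c : ℝ → E) (hc : ContDiff ℝ 1 c)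
    (h : ∃ B : ℝ, ∀ t : ℝ, 0 ≤ t → ∫ s in (0 : ℝ)..t, √(levi pot (c s) (deriv c s)) ≤ B) :
    ∃ q, Tendsto c atTop (𝓝 q) := by
  obtain ⟨B, hB⟩ := h
  obtain ⟨R, hR⟩ := rho_bdd hc hB
  have hL : Continuous fun s => √(levi pot (c s) (deriv c s)) :=
    (levi_cont hc.continuous (hc.continuous_deriv le_rfl)).sqrt
  have h0 : ∀ s, 0 ≤ √(levi pot (c s) (deriv c s)) := fun s => Real.sqrt_nonneg _
  have hder : ∀ s, HasDerivAt c (deriv c s) s := fun s =>
    (hc.differentiable one_ne_zero s).hasDerivAt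
  have hlev : ∀ s, levi pot (c s) (deriv c s) = (√(levi pot (c s) (deriv c s))) ^ 2 := by
    intro s
    rw [Real.sq_sqrt]
    refine le_trans ?_ (levi_lower (c s) (deriv c s))
    positivity
  have hv1 : ∀ s, ‖(deriv c s).1‖ ≤ 2 * √(levi pot (c s) (deriv c s)) := by
    intro s
    have h1 := levi_lower (c s) (deriv c s)
    have h2 : 0 ≤ (drho (c s) (deriv c s) ^ 2 + drho (c s) (Complex.I • deriv c s) ^ 2) /
      (4 * (1 + rho (c s) ^ 2)) := by positivity
    rw [hlev s] at h1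
    have h3 := h0 s
    have h4 := abs_le_of_sq_le_sq (a := ‖(deriv c s).1‖)
      (b := 2 * √(levi pot (c s) (deriv c s)))
      (by nlinarith [sq_nonneg ‖(deriv c s).2.1‖, sq_nonneg ‖(deriv c s).1‖,
        sq_nonneg (√(levi pot (c s) (deriv c s)))]) (by linarith)
    rwa [abs_of_nonneg (norm_nonneg _)] at h4
  have hv2 : ∀ s, ‖(deriv c s).2.1‖ ≤ 2 * √(levi pot (c s) (deriv c s)) := by
    intro s
    have h1 := levi_lower (c s) (deriv c s)
    have h2 : 0 ≤ (drho (c s) (deriv c s) ^ 2 + drho (c s) (Complex.I • deriv c s) ^ 2) /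
      (4 * (1 + rho (c s) ^ 2)) := by positivity
    rw [hlev s] at h1
    have h3 := h0 s
    have h4 := abs_le_of_sq_le_sq (a := ‖(deriv c s).2.1‖)
      (b := 2 * √(levi pot (c s) (deriv c s)))
      (by nlinarith [sq_nonneg ‖(deriv c s).2.1‖, sq_nonneg ‖(deriv c s).1‖,
        sq_nonneg (√(levi pot (c s) (deriv c s)))]) (by linarith)
    rwa [abs_of_nonneg (norm_nonneg _)] at h4
  -- the components
  have hx' : ∀ s, deriv (fun s => (c s).1) s = (deriv c s).1 := fun s =>
    ((ContinuousLinearMap.fst ℝ ℂ (ℂ × ℂ)).hasFDerivAt.comp_hasDerivAt s (hder s)).deriv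
  have hy' : ∀ s, deriv (fun s => (c s).2.1) s = (deriv c s).2.1 := fun s =>
    (((ContinuousLinearMap.fst ℝ ℂ ℂ).comp
      (ContinuousLinearMap.snd ℝ ℂ (ℂ × ℂ))).hasFDerivAt.comp_hasDerivAt s (hder s)).deriv
  have hx := (conv_gen (f := fun s => (c s).1) hc.fst hL h0 (C := 2) (by norm_num) hB
    (fun s _ => by rw [hx']; exact hv1 s)).2
  have hy := (conv_gen (f := fun s => (c s).2.1) hc.snd.fst hL h0 (C := 2) (by norm_num) hB
    (fun s _ => by rw [hy']; exact hv2 s)).2
  obtain ⟨M, hM⟩ : ∃ M : ℝ, M = ‖(c 0).1‖ + ‖(c 0).2.1‖ + 2 * |B| := ⟨_, rfl⟩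
  have hM0 : 0 ≤ M := by rw [hM]; positivity
  have hxM : ∀ s, 0 ≤ s → ‖(c s).1‖ ≤ M := by
    intro s hs
    have h1 := hx s hs
    have h2 : ‖(c s).1‖ ≤ ‖(c s).1 - (c 0).1‖ + ‖(c 0).1‖ := by
      have := norm_add_le ((c s).1 - (c 0).1) (c 0).1
      rwa [sub_add_cancel] at this
    have h3 := le_abs_self B
    have h4 := norm_nonneg (c 0).2.1
    rw [hM]
    linarith
  have hyM : ∀ s, 0 ≤ s → ‖(c s).2.1‖ ≤ M := by
    intro s hs
    have h1 := hy s hs
    have h2 : ‖(c s).2.1‖ ≤ ‖(c s).2.1 - (c 0).2.1‖ + ‖(c 0).2.1‖ := by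
      have := norm_add_le ((c s).2.1 - (c 0).2.1) (c 0).2.1
      rwa [sub_add_cancel] at this
    have h3 := le_abs_self B
    have h4 := norm_nonneg (c 0).1
    rw [hM]
    linarith
  have hS0 : 0 ≤ 1 + |R| := by positivity
  have hrho : ∀ s, 0 ≤ s → 1 + rho (c s) ^ 2 ≤ (1 + |R|) ^ 2 := by
    intro s hs
    have h1 : |rho (c s)| ≤ |R| := (hR s hs).trans (le_abs_self R)
    have h2 : rho (c s) ^ 2 ≤ |R| ^ 2 := by
      rw [← sq_abs (rho (c s))]
      exact pow_le_pow_left₀ (abs_nonneg _) h1 2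
    nlinarith [abs_nonneg R]
  have hdr : ∀ s, 0 ≤ s → |drho (c s) (deriv c s)| ≤
      2 * (1 + |R|) * √(levi pot (c s) (deriv c s)) ∧
      |drho (c s) (Complex.I • deriv c s)| ≤ 2 * (1 + |R|) * √(levi pot (c s) (deriv c s)) := by
    intro s hs
    have h1 := levi_lower (c s) (deriv c s)
    have hp : 0 < 4 * (1 + rho (c s) ^ 2) := by positivity
    have h2 : (drho (c s) (deriv c s) ^ 2 + drho (c s) (Complex.I • deriv c s) ^ 2) /
      (4 * (1 + rho (c s) ^ 2)) ≤ (√(levi pot (c s) (deriv c s))) ^ 2 := by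
      rw [← hlev s]
      refine le_trans ?_ h1
      have : 0 ≤ (‖(deriv c s).1‖ ^ 2 + ‖(deriv c s).2.1‖ ^ 2) / 2 := by positivity
      linarith
    rw [div_le_iff₀ hp] at h2
    have h3 : (√(levi pot (c s) (deriv c s))) ^ 2 * (4 * (1 + rho (c s) ^ 2)) ≤
        (2 * (1 + |R|) * √(levi pot (c s) (deriv c s))) ^ 2 := by
      have h4 := mul_le_mul_of_nonneg_left (hrho s hs)
        (sq_nonneg (√(levi pot (c s) (deriv c s))))
      nlinarith [h4]
    have hb : 0 ≤ 2 * (1 + |R|) * √(levi pot (c s) (deriv c s)) := by positivity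
    constructor
    · apply abs_le_of_sq_le_sq _ hb
      nlinarith [sq_nonneg (drho (c s) (Complex.I • deriv c s))]
    · apply abs_le_of_sq_le_sq _ hb
      nlinarith [sq_nonneg (drho (c s) (deriv c s))]
  refine (conv_gen hc hL h0 (C := 4 * (1 + |R|) + 8 * M + 2) (by positivity) hB ?_).1
  intro s hs
  obtain ⟨d1, d2⟩ := hdr s hs
  have e1 := hv1 s
  have e2 := hv2 s
  have e3 := hxM s hs
  have e4 := hyM s hs
  have e0 := h0 s
  set Ls := √(levi pot (c s) (deriv c s)) with hLs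
  have a1 : |(c s).1.im| ≤ M := (Complex.abs_im_le_norm _).trans e3
  have a2 : |(c s).2.1.re| ≤ M := (Complex.abs_re_le_norm _).trans e4
  have b1 : |(deriv c s).1.im| ≤ 2 * Ls := (Complex.abs_im_le_norm _).trans e1
  have b2 : |(deriv c s).1.re| ≤ 2 * Ls := (Complex.abs_re_le_norm _).trans e1
  have b3 : |(deriv c s).2.1.re| ≤ 2 * Ls := (Complex.abs_re_le_norm _).trans e2
  have b4 : |(deriv c s).2.1.im| ≤ 2 * Ls := (Complex.abs_im_le_norm _).trans e2
  have c1 : |(deriv c s).2.1.re * (c s).1.im| ≤ 2 * Ls * M := by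
    rw [abs_mul]
    exact mul_le_mul b3 a1 (abs_nonneg _) (by linarith)
  have c2 : |(c s).2.1.re * (deriv c s).1.im| ≤ M * (2 * Ls) := by
    rw [abs_mul]
    exact mul_le_mul a2 b1 (abs_nonneg _) hM0
  have c3 : |(deriv c s).2.1.im * (c s).1.im| ≤ 2 * Ls * M := by
    rw [abs_mul]
    exact mul_le_mul b4 a1 (abs_nonneg _) (by linarith)
  have c4 : |(c s).2.1.re * (deriv c s).1.re| ≤ M * (2 * Ls) := by
    rw [abs_mul]
    exact mul_le_mul a2 b2 (abs_nonneg _) hM0
  have him : |(deriv c s).2.2.im| ≤ 2 * (1 + |R|) * Ls + 4 * M * Ls := by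
    have h1 : (deriv c s).2.2.im = drho (c s) (deriv c s) + (deriv c s).2.1.re * (c s).1.im +
        (c s).2.1.re * (deriv c s).1.im := by
      unfold drho
      ring
    rw [h1]
    have h2 := abs_add_three (drho (c s) (deriv c s)) ((deriv c s).2.1.re * (c s).1.im)
      ((c s).2.1.re * (deriv c s).1.im)
    linarith
  have hre : |(deriv c s).2.2.re| ≤ 2 * (1 + |R|) * Ls + 4 * M * Ls := by
    have h1 : (deriv c s).2.2.re = drho (c s) (Complex.I • deriv c s) +
        (-((deriv c s).2.1.im * (c s).1.im)) + (c s).2.1.re * (deriv c s).1.re := by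
      unfold drho
      have i1 : (Complex.I • deriv c s).2.2.im = (deriv c s).2.2.re := by
        show (Complex.I * (deriv c s).2.2).im = _
        simp
      have i2 : (Complex.I • deriv c s).2.1.re = -(deriv c s).2.1.im := by
        show (Complex.I * (deriv c s).2.1).re = _
        simp
      have i3 : (Complex.I • deriv c s).1.im = (deriv c s).1.re := by
        show (Complex.I * (deriv c s).1).im = _
        simp
      rw [i1, i2, i3]
      ring
    rw [h1]
    have h2 := abs_add_three (drho (c s) (Complex.I • deriv c s))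
      (-((deriv c s).2.1.im * (c s).1.im)) ((c s).2.1.re * (deriv c s).1.re)
    rw [abs_neg] at h2
    linarith
  have hv3 : ‖(deriv c s).2.2‖ ≤ (4 * (1 + |R|) + 8 * M + 2) * Ls := by
    have h1 := Complex.norm_le_abs_re_add_abs_im (deriv c s).2.2
    nlinarith
  have hbig : 2 * Ls ≤ (4 * (1 + |R|) + 8 * M + 2) * Ls := by
    apply mul_le_mul_of_nonneg_right _ e0
    have := abs_nonneg R
    linarith
  rw [Prod.norm_def, Prod.norm_def]
  exact max_le (e1.trans hbig) (max_le (e2.trans hbig) hv3)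


end J_complete

alias complete := J_complete.complete

end Pool.Agent.Helper10.EK
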