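import Mathlib
import Pool.Agent.Helper10.EK.Base
import Pool.Agent.Helper10.EK.J_ff_props

open Set Filter Topology
open scoped RealInnerProductSpace ContDiff unitInterval

noncomputable section

namespace Pool.Agent.Helper10.EK

namespace J_exhaust


-- TARGET: prove this (put auxiliary lemmas between the ASSUMED END line and the theorem)

theorem exhaust_norm (w : ℂ) (a b : ℝ) (h1 : 0 ≤ w.re) (h2 : w.re ≤ a) (h3 : |w.im| ≤ b) :
    ‖w‖ ≤ a + b := by
  refine (Complex.norm_le_abs_re_add_abs_im w).trans ?_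
  rw [abs_of_nonneg h1]
  linarith

theorem exhaust (C : ℝ) : ∃ K : Set E, IsCompact K ∧ ∀ p, pot p ≤ C → ∃ g : Heis, g • p ∈ K := by
  obtain ⟨D, hD⟩ : ∃ D : ℝ, D = |C| + 2 := ⟨_, rfl⟩
  have hC := le_abs_self C
  have hC0 := abs_nonneg C
  refine ⟨Metric.closedBall 0 (1 + 3 * D), isCompact_closedBall _ _, ?_⟩
  rintro ⟨x, y, z⟩ hp
  unfold pot at hp
  simp only at hp
  obtain ⟨r, hr⟩ : ∃ r : ℝ, r = rho (x, y, z) := ⟨_, rfl⟩
  have hr' : r = z.im - y.re * x.im := by rw [hr]; rfl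
  rw [← hr] at hp
  have hf := ff_props.2.2 r
  have hr0 := abs_nonneg r
  have ha2 : x.im ^ 2 ≤ D - 1 := by nlinarith [sq_nonneg y.im]
  have hb2 : y.im ^ 2 ≤ D - 1 := by nlinarith [sq_nonneg x.im]
  have ha : |x.im| ≤ D := by
    rw [abs_le]; constructor <;> nlinarith [sq_nonneg (x.im + 1), sq_nonneg (x.im - 1)]
  have hb : |y.im| ≤ D := by
    rw [abs_le]; constructor <;> nlinarith [sq_nonneg (y.im + 1), sq_nonneg (y.im - 1)]
  have hrD : |r| ≤ 2 * D := by nlinarith [sq_nonneg x.im, sq_nonneg y.im]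
  obtain ⟨n, hn⟩ : ∃ n : ℤ, n = -⌊y.re⌋ := ⟨_, rfl⟩
  obtain ⟨w, hw⟩ : ∃ w : ℂ, w = z + (n : ℂ) * x := ⟨_, rfl⟩
  refine ⟨⟨-⌊x.re⌋, n, -⌊w.re⌋⟩, ?_⟩
  rw [Heis.smul_def]
  simp only
  have hx0 := Int.floor_le x.re
  have hx1 := Int.lt_floor_add_one x.re
  have hy0 := Int.floor_le y.re
  have hy1 := Int.lt_floor_add_one y.re
  have hw0 := Int.floor_le w.re
  have hw1 := Int.lt_floor_add_one w.re
  have hnr : (n : ℝ) = -(⌊y.re⌋ : ℝ) := by rw [hn]; push_cast; ring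
  have e1 : ‖x + ((-⌊x.re⌋ : ℤ) : ℂ)‖ ≤ 1 + 3 * D := by
    apply exhaust_norm
    · simp; linarith
    · simp; linarith
    · simp; linarith
  have e2 : ‖y + (n : ℂ)‖ ≤ 1 + 3 * D := by
    apply exhaust_norm
    · simp; linarith
    · simp; linarith
    · simp; linarith
  have hwim : w.im = r + (y.re + n) * x.im := by
    rw [hw, hr']
    simp
    ring
  have e3 : ‖z + ((-⌊w.re⌋ : ℤ) : ℂ) + (n : ℂ) * x‖ ≤ 1 + 3 * D := by
    have : z + ((-⌊w.re⌋ : ℤ) : ℂ) + (n : ℂ) * x = w + ((-⌊w.re⌋ : ℤ) : ℂ) := by rw [hw]; ring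
    rw [this]
    apply exhaust_norm
    · simp; linarith
    · simp; linarith
    · have h1 : (w + ((-⌊w.re⌋ : ℤ) : ℂ)).im = w.im := by simp
      rw [h1, hwim]
      refine (abs_add_le _ _).trans ?_
      rw [abs_mul]
      have h2 : |y.re + n| ≤ 1 := by rw [abs_le]; constructor <;> linarith
      have h3 : |y.re + n| * |x.im| ≤ 1 * D := mul_le_mul h2 ha (abs_nonneg _) (by norm_num)
      linarith
  rw [mem_closedBall_zero_iff, Prod.norm_def, Prod.norm_def]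
  exact max_le e1 (max_le e2 e3)


end J_exhaust

alias exhaust := J_exhaust.exhaust

end Pool.Agent.Helper10.EK
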