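import Mathlib
import Pool.Agent.Helper10.EK.Base
import Pool.Agent.Helper10.EK.J_levi_lower

open Set Filter Topology
open scoped RealInnerProductSpace ContDiff unitInterval

noncomputable section

namespace Pool.Agent.Helper10.EK

namespace J_levi_pos


-- TARGET: prove this (put auxiliary lemmas between the ASSUMED END line and the theorem)

theorem levi_pos (p v : E) (hv : v ≠ 0) : 0 < levi pot p v := by
  refine lt_of_lt_of_le ?_ (levi_lower p v)
  have hden : 0 < 4 * (1 + rho p ^ 2) := by positivity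
  have h2 : 0 ≤ (drho p v ^ 2 + drho p (Complex.I • v) ^ 2) / (4 * (1 + rho p ^ 2)) := by
    positivity
  by_cases h1 : v.1 = 0
  · by_cases h3 : v.2.1 = 0
    · have h4 : v.2.2 ≠ 0 := by
        intro h5
        apply hv
        refine Prod.ext h1 (Prod.ext h3 h5)
      have e1 : drho p v = v.2.2.im := by
        unfold drho
        rw [h1, h3]
        simp
      have e2 : drho p (Complex.I • v) = v.2.2.re := by
        unfold drho
        have q1 : (Complex.I • v).1 = Complex.I * v.1 := rfl
        have q2 : (Complex.I • v).2.1 = Complex.I * v.2.1 := rfl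
        have q3 : (Complex.I • v).2.2 = Complex.I * v.2.2 := rfl
        rw [q1, q2, q3, h1, h3]
        simp
      have e3 : 0 < v.2.2.im ^ 2 + v.2.2.re ^ 2 := by
        have h6 : 0 < Complex.normSq v.2.2 := Complex.normSq_pos.2 h4
        rw [Complex.normSq_apply] at h6
        nlinarith
      rw [e1, e2]
      have h7 : 0 < (v.2.2.im ^ 2 + v.2.2.re ^ 2) / (4 * (1 + rho p ^ 2)) := div_pos e3 hden
      have h8 : 0 ≤ (‖v.1‖ ^ 2 + ‖v.2.1‖ ^ 2) / 2 := by positivity
      linarith
    · have h4 : 0 < ‖v.2.1‖ := norm_pos_iff.2 h3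
      have h5 : 0 < (‖v.1‖ ^ 2 + ‖v.2.1‖ ^ 2) / 2 := by positivity
      linarith
  · have h4 : 0 < ‖v.1‖ := norm_pos_iff.2 h1
    have h5 : 0 < (‖v.1‖ ^ 2 + ‖v.2.1‖ ^ 2) / 2 := by positivity
    linarith


end J_levi_pos

alias levi_pos := J_levi_pos.levi_pos

end Pool.Agent.Helper10.EK
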