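import Mathlib
import Pool.Agent.Helper10.EK.Base

open Set Filter Topology
open scoped RealInnerProductSpace ContDiff unitInterval

noncomputable section

namespace Pool.Agent.Helper10.EK

namespace J_aa_surj


-- TARGET: prove this (put auxiliary lemmas between the ASSUMED END line and the theorem)

theorem aa_surj {G G' : Type} [Group G] [Group G'] (f : G →* G') (hf : Function.Surjective f)
    (h : AlmostAbelian G) : AlmostAbelian G' := by
  obtain ⟨H, h1, h2⟩ := h
  refine ⟨H.map f, ?_, ?_⟩
  · first
      | exact ⟨fun h0 => h1.1 (by
          have := H.index_map_dvd hf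
          rw [h0] at this
          exact Nat.eq_zero_of_zero_dvd this)⟩
      | exact fun h0 => h1 (by
          have := H.index_map_dvd hf
          rw [h0] at this
          exact Nat.eq_zero_of_zero_dvd this)
  · rintro _ ⟨a, ha, rfl⟩ _ ⟨b, hb, rfl⟩
    rw [← map_mul, ← map_mul, h2 a ha b hb]


end J_aa_surj

alias aa_surj := J_aa_surj.aa_surj

end Pool.Agent.Helper10.EK
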