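import Mathlib
import Pool.Agent.Helper10.EK.Base

open Set Filter Topology
open scoped RealInnerProductSpace ContDiff unitInterval

noncomputable section

namespace Pool.Agent.Helper10.EK

namespace J_heis_not


-- TARGET: prove this (put auxiliary lemmas between the ASSUMED END line and the theorem)

theorem heis_pow_a (N : ℕ) : (⟨1, 0, 0⟩ : Heis) ^ N = ⟨N, 0, 0⟩ := by
  induction N with
  | zero => rw [pow_zero]; ext <;> simp
  | succ N ih => rw [pow_succ, ih]; ext <;> simp

theorem heis_pow_b (N : ℕ) : (⟨0, 1, 0⟩ : Heis) ^ N = ⟨0, N, 0⟩ := by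
  induction N with
  | zero => rw [pow_zero]; ext <;> simp
  | succ N ih => rw [pow_succ, ih]; ext <;> simp

theorem heis_not : ¬ AlmostAbelian Heisᵐᵒᵖ := by
  rintro ⟨H, hfin, hcomm⟩
  obtain ⟨N, hN, _, hNm⟩ := Subgroup.exists_pow_mem_of_index_ne_zero hfin.index_ne_zero
    (MulOpposite.op (⟨1, 0, 0⟩ : Heis))
  obtain ⟨M, hM, _, hMm⟩ := Subgroup.exists_pow_mem_of_index_ne_zero hfin.index_ne_zero
    (MulOpposite.op (⟨0, 1, 0⟩ : Heis))
  have h1 := hcomm _ hNm _ hMm
  rw [← MulOpposite.op_pow, ← MulOpposite.op_pow, heis_pow_a, heis_pow_b,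
    ← MulOpposite.op_mul, ← MulOpposite.op_mul] at h1
  have h2 := congrArg Heis.k (MulOpposite.op_injective h1)
  simp only [Heis.mul_k] at h2
  have hN' : (0 : ℤ) < N := by exact_mod_cast hN
  have hM' : (0 : ℤ) < M := by exact_mod_cast hM
  have := mul_pos hM' hN'
  simp at h2
  omega


end J_heis_not

alias heis_not := J_heis_not.heis_not

end Pool.Agent.Helper10.EK
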