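import Mathlib
import Pool.Agent.Helper10.EK.Base
import Pool.Agent.Helper10.EK.J_action

open Set Filter Topology
open scoped RealInnerProductSpace ContDiff unitInterval

noncomputable section

namespace Pool.Agent.Helper10.EK

namespace J_pr_cov


-- TARGET: prove this (put auxiliary lemmas between the ASSUMED END line and the theorem)

theorem pr_cov : IsQuotientCoveringMap (pr Heis) Heis := by
  haveI h1 : ProperlyDiscontinuousSMul Heis E := by
    constructor
    intro K L hK hL
    refine (action.2.2 (K ∪ L) (hK.union hL)).subset ?_
    rintro γ ⟨x, ⟨y, hy, hxy⟩, hx⟩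
    exact ⟨x, ⟨y, Or.inl hy, hxy⟩, Or.inr hx⟩
  haveI h2 : ContinuousConstSMul Heis E := by
    constructor
    intro γ
    exact (action.1 γ).continuous
  haveI h3 : IsCancelSMul Heis E := by
    rw [isCancelSMul_iff_eq_one_of_smul_eq]
    exact action.2.1
  exact isQuotientCoveringMap_quotientMk_of_properlyDiscontinuousSMul


end J_pr_cov

alias pr_cov := J_pr_cov.pr_cov

end Pool.Agent.Helper10.EK
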