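import Mathlib
import Pool.Agent.Helper10.EK.Base
import Pool.Agent.Helper10.EK.J_pr_cov
import Pool.Agent.Helper10.EK.J_heis_not
import Pool.Agent.Helper10.EK.J_aa_surj

open Set Filter Topology
open scoped RealInnerProductSpace ContDiff unitInterval

noncomputable section

namespace Pool.Agent.Helper10.EK

namespace J_pi_not


-- TARGET: prove this (put auxiliary lemmas between the ASSUMED END line and the theorem)

theorem pi_not (x : Orb Heis) : ¬ AlmostAbelian (FundamentalGroup (Orb Heis) x) := by
  intro h
  haveI : PathConnectedSpace E := inferInstance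
  obtain ⟨e, he⟩ := pr_cov.surjective x
  exact heis_not (aa_surj (pr_cov.fundamentalGroupToMulOpposite ⟨e, he⟩)
    (pr_cov.fundamentalGroupToMulOpposite_surjective _) h)


end J_pi_not

alias pi_not := J_pi_not.pi_not

end Pool.Agent.Helper10.EK
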