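import Mathlib
import Pool.Agent.Helper10.EK.Base

open Set Filter Topology
open scoped RealInnerProductSpace ContDiff unitInterval

noncomputable section

namespace Pool.Agent.Helper10.EK

namespace J_pot_inv


-- TARGET: prove this (put auxiliary lemmas between the ASSUMED END line and the theorem)

theorem pot_inv (g : Heis) (p : E) : pot (g • p) = pot p := by
  have h1 : (g • p).1.im = p.1.im := by
    rw [Heis.smul_def]; simp
  have h2 : (g • p).2.1.im = p.2.1.im := by
    rw [Heis.smul_def]; simp
  have h3 : rho (g • p) = rho p := by
    unfold rho
    rw [Heis.smul_def]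
    simp only [Complex.add_im, Complex.add_re, Complex.intCast_im, Complex.intCast_re,
      Complex.mul_im]
    ring
  unfold pot
  rw [h1, h2, h3]


end J_pot_inv

alias pot_inv := J_pot_inv.pot_inv

end Pool.Agent.Helper10.EK
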