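import Mathlib
import Pool.Agent.Helper10.EK.Base
import Pool.Agent.Helper10.EK.J_ff_props

open Set Filter Topology
open scoped RealInnerProductSpace ContDiff unitInterval

noncomputable section

namespace Pool.Agent.Helper10.EK

namespace J_pot_smooth


-- TARGET: prove this (put auxiliary lemmas between the ASSUMED END line and the theorem)

theorem pot_smooth : ContDiff ℝ ∞ pot := by
  have h1 : ContDiff ℝ ∞ (fun p : E => p.1.im) :=
    Complex.imCLM.contDiff.comp contDiff_fst
  have h2 : ContDiff ℝ ∞ (fun p : E => p.2.1.im) :=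
    Complex.imCLM.contDiff.comp (contDiff_fst.comp contDiff_snd)
  have h3 : ContDiff ℝ ∞ (fun p : E => p.2.2.im) :=
    Complex.imCLM.contDiff.comp (contDiff_snd.comp contDiff_snd)
  have h4 : ContDiff ℝ ∞ (fun p : E => p.2.1.re) :=
    Complex.reCLM.contDiff.comp (contDiff_fst.comp contDiff_snd)
  have hr : ContDiff ℝ ∞ rho := h3.sub (h4.mul h1)
  exact ((contDiff_const.mul (h1.pow 2)).add (contDiff_const.mul (h2.pow 2))).add
    (ff_props.1.comp hr)


end J_pot_smooth

alias pot_smooth := J_pot_smooth.pot_smooth

end Pool.Agent.Helper10.EK
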