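import Mathlib
import Pool.Agent.Helper10.EK.J_pot_smooth
import Pool.Agent.Helper10.EK.J_pot_inv
import Pool.Agent.Helper10.EK.J_levi_pos
import Pool.Agent.Helper10.EK.J_complete
import Pool.Agent.Helper10.EK.J_action
import Pool.Agent.Helper10.EK.J_pi_not
import Pool.Agent.Helper10.EK.J_exhaust

open Set Filter Topology
open scoped ContDiff unitInterval

noncomputable section

namespace Pool.Agent.Helper10.EK

theorem kahler : IsCompleteKahlerPotential pot :=
  ⟨pot_smooth, levi_pos, fun c hc h => complete c hc h⟩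

theorem lines {Γ : Type} [Group Γ] [MulAction Γ E] (x y : Orb Γ) :
    ∃ F : ℂ → E, Differentiable ℂ F ∧ pr Γ (F 0) = x ∧ pr Γ (F 1) = y := by
  obtain ⟨p, rfl⟩ := Quotient.exists_rep x
  obtain ⟨q, rfl⟩ := Quotient.exists_rep y
  refine ⟨fun w => p + w • (q - p), by fun_prop, ?_, ?_⟩
  · simp [pr]
  · simp [pr]

end Pool.Agent.Helper10.EK
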